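import Mathlib

set_option autoImplicit false

/-!
# A rectangle exchange map with a non-recurrent point

Let `α` be irrational, `0 < α < 1 / 2`, and let `T` be the interval exchange of `[0, 1)` with
intervals of lengths `α, α, 1 - 2 α` which reverses the order of the intervals. The map
`(x, y) ↦ (T x, T⁻¹ y)` is a rectangle exchange with nine rectangles. The forward orbit of `(α, 0)`
stays on the diagonal `x + y = 1` after the first step.
-/

namespace Pool.Agent.U618.RectEx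

open Set

/-- left end points of the intervals of `T` -/
noncomputable def p (α : ℝ) : Fin 3 → ℝ := ![0, α, 2 * α]
/-- right end points of the intervals of `T` -/
noncomputable def q (α : ℝ) : Fin 3 → ℝ := ![α, 2 * α, 1]
/-- translations of `T` -/
noncomputable def t (α : ℝ) : Fin 3 → ℝ := ![1 - α, 1 - 3 * α, -(2 * α)]
/-- left end points of the intervals of the inverse -/
noncomputable def p' (α : ℝ) : Fin 3 → ℝ := ![0, 1 - 2 * α, 1 - α]
/-- right end points of the intervals of the inverse -/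
noncomputable def q' (α : ℝ) : Fin 3 → ℝ := ![1 - 2 * α, 1 - α, 1]
/-- translations of the inverse -/
noncomputable def t' (α : ℝ) : Fin 3 → ℝ := ![2 * α, -(1 - 3 * α), -(1 - α)]

/-- the interval exchange -/
noncomputable def T (α : ℝ) (x : ℝ) : ℝ :=
  if x < α then x + (1 - α) else if x < 2 * α then x + (1 - 3 * α) else x - 2 * α

/-- its inverse -/
noncomputable def T' (α : ℝ) (y : ℝ) : ℝ :=
  if y < 1 - 2 * α then y + 2 * α else if y < 1 - α then y - (1 - 3 * α) else y - (1 - α)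

variable {α : ℝ}

lemma disj_p (h0 : 0 < α) (_h1 : 2 * α < 1) : ∀ i j : Fin 3, i ≠ j →
    Disjoint (Ico (p α i) (q α i)) (Ico (p α j) (q α j)) := by
  intro i j hij
  rw [Set.disjoint_left]
  rintro x ⟨h2, h3⟩ ⟨h4, h5⟩
  fin_cases i <;> fin_cases j <;> simp [p, q] at * <;> linarith

lemma disj_p' (h0 : 0 < α) (_h1 : 2 * α < 1) : ∀ i j : Fin 3, i ≠ j →
    Disjoint (Ico (p' α i) (q' α i)) (Ico (p' α j) (q' α j)) := by
  intro i j hij
  rw [Set.disjoint_left]
  rintro x ⟨h2, h3⟩ ⟨h4, h5⟩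
  fin_cases i <;> fin_cases j <;> simp [p', q'] at * <;> linarith

lemma disj_pt (h0 : 0 < α) (_h1 : 2 * α < 1) : ∀ i j : Fin 3, i ≠ j →
    Disjoint (Ico (p α i + t α i) (q α i + t α i)) (Ico (p α j + t α j) (q α j + t α j)) := by
  intro i j hij
  rw [Set.disjoint_left]
  rintro x ⟨h2, h3⟩ ⟨h4, h5⟩
  fin_cases i <;> fin_cases j <;> simp [p, q, t] at * <;> linarith

lemma disj_pt' (h0 : 0 < α) (_h1 : 2 * α < 1) : ∀ i j : Fin 3, i ≠ j →
    Disjoint (Ico (p' α i + t' α i) (q' α i + t' α i))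
      (Ico (p' α j + t' α j) (q' α j + t' α j)) := by
  intro i j hij
  rw [Set.disjoint_left]
  rintro x ⟨h2, h3⟩ ⟨h4, h5⟩
  fin_cases i <;> fin_cases j <;> simp [p', q', t'] at * <;> linarith

lemma cov_p (h0 : 0 < α) (h1 : 2 * α < 1) (x : ℝ) :
    (∃ i, x ∈ Ico (p α i) (q α i)) ↔ x ∈ Ico (0:ℝ) 1 := by
  constructor
  · rintro ⟨i, h2, h3⟩
    fin_cases i <;> simp [p, q] at * <;> constructor <;> linarith
  · rintro ⟨h2, h3⟩
    rcases lt_or_ge x α with h | h
    · exact ⟨0, by simp [p, q]; exact ⟨h2, h⟩⟩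
    · rcases lt_or_ge x (2 * α) with h' | h'
      · exact ⟨1, by simp [p, q]; exact ⟨h, h'⟩⟩
      · exact ⟨2, by simp [p, q]; exact ⟨h', h3⟩⟩

lemma cov_p' (h0 : 0 < α) (h1 : 2 * α < 1) (x : ℝ) :
    (∃ i, x ∈ Ico (p' α i) (q' α i)) ↔ x ∈ Ico (0:ℝ) 1 := by
  constructor
  · rintro ⟨i, h2, h3⟩
    fin_cases i <;> simp [p', q'] at * <;> constructor <;> linarith
  · rintro ⟨h2, h3⟩
    rcases lt_or_ge x (1 - 2 * α) with h | h
    · exact ⟨0, by simp [p', q']; exact ⟨h2, h⟩⟩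
    · rcases lt_or_ge x (1 - α) with h' | h'
      · exact ⟨1, by simp [p', q'] at *; exact ⟨by linarith, h'⟩⟩
      · exact ⟨2, by simp [p', q'] at *; exact ⟨by linarith, h3⟩⟩

lemma cov_pt (h0 : 0 < α) (h1 : 2 * α < 1) (x : ℝ) :
    (∃ i, x ∈ Ico (p α i + t α i) (q α i + t α i)) ↔ x ∈ Ico (0:ℝ) 1 := by
  constructor
  · rintro ⟨i, h2, h3⟩
    fin_cases i <;> simp [p, q, t] at * <;> constructor <;> linarith
  · rintro ⟨h2, h3⟩
    rcases lt_or_ge x (1 - 2 * α) with h | h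
    · exact ⟨2, by simp [p, q, t]; exact ⟨h2, by linarith⟩⟩
    · rcases lt_or_ge x (1 - α) with h' | h'
      · exact ⟨1, by simp [p, q, t]; constructor <;> linarith⟩
      · exact ⟨0, by simp [p, q, t]; constructor <;> linarith⟩

lemma cov_pt' (h0 : 0 < α) (h1 : 2 * α < 1) (x : ℝ) :
    (∃ i, x ∈ Ico (p' α i + t' α i) (q' α i + t' α i)) ↔ x ∈ Ico (0:ℝ) 1 := by
  constructor
  · rintro ⟨i, h2, h3⟩
    fin_cases i <;> simp [p', q', t'] at * <;> constructor <;> linarith
  · rintro ⟨h2, h3⟩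
    rcases lt_or_ge x α with h | h
    · exact ⟨2, by simp [p', q', t']; constructor <;> linarith⟩
    · rcases lt_or_ge x (2 * α) with h' | h'
      · exact ⟨1, by simp [p', q', t']; constructor <;> linarith⟩
      · exact ⟨0, by simp [p', q', t']; constructor <;> linarith⟩

lemma T_eq (h0 : 0 < α) (i : Fin 3) {x : ℝ} (hx : x ∈ Ico (p α i) (q α i)) :
    T α x = x + t α i := by
  obtain ⟨h2, h3⟩ := hx
  fin_cases i
  · change 0 ≤ x at h2
    change x < α at h3
    change T α x = x + (1 - α)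
    unfold T
    rw [if_pos h3]
  · change α ≤ x at h2
    change x < 2 * α at h3
    change T α x = x + (1 - 3 * α)
    unfold T
    rw [if_neg (not_lt.2 h2), if_pos h3]
  · change 2 * α ≤ x at h2
    change T α x = x + -(2 * α)
    unfold T
    rw [if_neg (not_lt.2 (by linarith)), if_neg (not_lt.2 h2)]
    ring

lemma T'_eq (h0 : 0 < α) (i : Fin 3) {x : ℝ} (hx : x ∈ Ico (p' α i) (q' α i)) :
    T' α x = x + t' α i := by
  obtain ⟨h2, h3⟩ := hx
  fin_cases i
  · change x < 1 - 2 * α at h3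
    change T' α x = x + 2 * α
    unfold T'
    rw [if_pos h3]
  · change 1 - 2 * α ≤ x at h2
    change x < 1 - α at h3
    change T' α x = x + -(1 - 3 * α)
    unfold T'
    rw [if_neg (not_lt.2 h2), if_pos h3]
    ring
  · change 1 - α ≤ x at h2
    change T' α x = x + -(1 - α)
    unfold T'
    rw [if_neg (not_lt.2 (by linarith)), if_neg (not_lt.2 h2)]
    ring

/-- the orbit -/
lemma orbit (h0 : 0 < α) (h1 : 2 * α < 1) (hα : Irrational α) (n : ℕ) :
    (∃ (a : ℕ) (b : ℤ), (T α)^[n + 1] α = 1 + a + b * α) ∧ 0 < (T α)^[n + 1] α ∧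
      (T α)^[n + 1] α < 1 ∧ (T' α)^[n + 1] 0 = 1 - (T α)^[n + 1] α := by
  have key : ∀ (a : ℕ) (b c : ℤ), (1 + a + b * α : ℝ) ≠ c * α := by
    intro a b c h
    have h2 : ((c - b : ℤ) : ℝ) * α = ((1 + a : ℕ) : ℝ) := by
      push_cast; linarith
    have h3 : (c - b : ℤ) ≠ 0 := by
      intro h4
      rw [h4] at h2
      have : (0:ℝ) < ((1 + a : ℕ) : ℝ) := by positivity
      simp at h2
      push_cast at this
      linarith
    have h5 : Irrational (((c - b : ℤ) : ℝ) * α) := hα.intCast_mul h3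
    rw [h2] at h5
    exact h5.ne_nat _ rfl
  induction n with
  | zero =>
    have e1 : T α α = 1 - 2 * α := by
      unfold T
      rw [if_neg (lt_irrefl _), if_pos (by linarith)]
      ring
    have e2 : T' α 0 = 2 * α := by
      unfold T'
      rw [if_pos (by linarith)]
      ring
    simp only [zero_add, Function.iterate_one]
    rw [e1, e2]
    refine ⟨⟨0, -2, by push_cast; ring⟩, by linarith, by linarith, by ring⟩
  | succ n ih =>
    obtain ⟨⟨a, b, hab⟩, hp, hl, hT'⟩ := ih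
    rw [Function.iterate_succ_apply', Function.iterate_succ_apply' (T' α), hT']
    set z := (T α)^[n + 1] α with hz
    have hz1 : z ≠ α := by
      rw [hab]
      have := key a b 1
      simpa using this
    have hz2 : z ≠ 2 * α := by
      rw [hab]
      have := key a b 2
      simpa using this
    rcases lt_or_gt_of_ne hz1 with h | h
    · have e1 : T α z = z + (1 - α) := by
        unfold T; rw [if_pos h]
      have e2 : T' α (1 - z) = 1 - z - (1 - α) := by
        unfold T'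
        rw [if_neg (not_lt.2 (by linarith)), if_neg (not_lt.2 (by linarith))]
      rw [e1, e2, hab]
      refine ⟨⟨a + 1, b - 1, by push_cast; ring⟩, by rw [← hab]; linarith,
        by rw [← hab]; linarith, by ring⟩
    · rcases lt_or_gt_of_ne hz2 with h' | h'
      · have e1 : T α z = z + (1 - 3 * α) := by
          unfold T; rw [if_neg (not_lt.2 h.le), if_pos h']
        have e2 : T' α (1 - z) = 1 - z - (1 - 3 * α) := by
          unfold T'
          rw [if_neg (not_lt.2 (by linarith)), if_pos (by linarith)]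
        rw [e1, e2, hab]
        refine ⟨⟨a + 1, b - 3, by push_cast; ring⟩, by rw [← hab]; linarith,
          by rw [← hab]; linarith, by ring⟩
      · have e1 : T α z = z - 2 * α := by
          unfold T; rw [if_neg (not_lt.2 h.le), if_neg (not_lt.2 h'.le)]
        have e2 : T' α (1 - z) = 1 - z + 2 * α := by
          unfold T'
          rw [if_pos (by linarith)]
        rw [e1, e2, hab]
        refine ⟨⟨a, b - 2, by push_cast; ring⟩, by rw [← hab]; linarith,
          by rw [← hab]; linarith, by ring⟩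

/-- products of partitions -/
lemma prod_disj {a b c d : Fin 3 → ℝ}
    (h1 : ∀ i j : Fin 3, i ≠ j → Disjoint (Ico (a i) (b i)) (Ico (a j) (b j)))
    (h2 : ∀ i j : Fin 3, i ≠ j → Disjoint (Ico (c i) (d i)) (Ico (c j) (d j)))
    (r s : Fin 3 × Fin 3) (hrs : r ≠ s) :
    Disjoint (Ico (a r.1) (b r.1) ×ˢ Ico (c r.2) (d r.2))
      (Ico (a s.1) (b s.1) ×ˢ Ico (c s.2) (d s.2)) := by
  rw [Set.disjoint_prod]
  by_cases h : r.1 = s.1
  · right
    exact h2 _ _ fun h' => hrs (Prod.ext h h')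
  · left
    exact h1 _ _ h

lemma prod_cov {a b c d : Fin 3 → ℝ}
    (h1 : ∀ x, (∃ i, x ∈ Ico (a i) (b i)) ↔ x ∈ Ico (0:ℝ) 1)
    (h2 : ∀ x, (∃ i, x ∈ Ico (c i) (d i)) ↔ x ∈ Ico (0:ℝ) 1) (e : Fin (3 * 3) ≃ Fin 3 × Fin 3) :
    (⋃ r : Fin (3 * 3), Ico (a (e r).1) (b (e r).1) ×ˢ Ico (c (e r).2) (d (e r).2)) =
      Ico (0:ℝ) 1 ×ˢ Ico (0:ℝ) 1 := by
  ext ⟨x, y⟩
  simp only [mem_iUnion, mem_prod]
  rw [← h1 x, ← h2 y]
  constructor
  · rintro ⟨r, hx, hy⟩
    exact ⟨⟨_, hx⟩, ⟨_, hy⟩⟩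
  · rintro ⟨⟨i, hx⟩, ⟨j, hy⟩⟩
    refine ⟨e.symm (i, j), ?_⟩
    simpa using ⟨hx, hy⟩

/-- the distance of the orbit of `(α, 0)` from its starting point -/
lemma far (h0 : 0 < α) (h1 : 2 * α < 1) (hα : Irrational α) (N : ℕ) (hN : 1 ≤ N) (k1 k2 : ℤ) :
    α ^ 2 / 2 ≤ ((T α)^[N] α - α + k1) ^ 2 + ((T' α)^[N] 0 - 0 + k2) ^ 2 := by
  obtain ⟨n, rfl⟩ : ∃ n, N = n + 1 := ⟨N - 1, by omega⟩
  obtain ⟨-, -, -, hT⟩ := orbit h0 h1 hα n
  rw [hT]
  set z := (T α)^[n + 1] α
  have h2 : (z - α + k1 + (1 - z - 0 + k2)) ^ 2 / 2 ≤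
      (z - α + k1) ^ 2 + (1 - z - 0 + k2) ^ 2 := by
    nlinarith [sq_nonneg ((z - α + k1) - (1 - z - 0 + k2))]
  refine le_trans ?_ h2
  have h3 : z - α + k1 + (1 - z - 0 + k2) = ((1 + k1 + k2 : ℤ) : ℝ) - α := by
    push_cast; ring
  rw [h3]
  have h4 : α ^ 2 ≤ (((1 + k1 + k2 : ℤ) : ℝ) - α) ^ 2 := by
    rcases le_or_gt (1 + k1 + k2) 0 with h | h
    · have : ((1 + k1 + k2 : ℤ) : ℝ) ≤ 0 := by exact_mod_cast h
      nlinarith
    · have h5 : (1:ℤ) ≤ 1 + k1 + k2 := h
      have : (1:ℝ) ≤ ((1 + k1 + k2 : ℤ) : ℝ) := by exact_mod_cast h5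
      nlinarith
  linarith

lemma iter_prod (α : ℝ) (N : ℕ) (x y : ℝ) :
    (fun z : ℝ × ℝ => (T α z.1, T' α z.2))^[N] (x, y) = ((T α)^[N] x, (T' α)^[N] y) := by
  induction N with
  | zero => rfl
  | succ N ih => rw [Function.iterate_succ_apply', ih, Function.iterate_succ_apply',
      Function.iterate_succ_apply']

end Pool.Agent.U618.RectEx
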